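import Pool.Agent.Q295.PN.StmD

/-!
# Project PN, job D3: the law of a pair of Bernoulli fields from its avoidance probabilities
-/

set_option autoImplicit false

namespace Pool.Agent.Q234.PN

open MeasureTheory ProbabilityTheory Finset
open Pool.Agent.Q295.PN

variable {ι : Type} [Fintype ι] [DecidableEq ι]

/-- the indicator function of `κ = 0` on `A` -/
def ind (A : Finset ι) (κ : ι → Bool) : ℝ := if ∀ i ∈ A, κ i = false then 1 else 0

theorem ind_prod (A : Finset ι) (κ : ι → Bool) :
    ind A κ = ∏ i, (if i ∈ A ∧ κ i = true then (0 : ℝ) else 1) := by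
  unfold ind
  split_ifs with h
  · symm
    apply Finset.prod_eq_one
    intro i _
    rw [if_neg]
    rintro ⟨h1, h2⟩
    rw [h i h1] at h2
    simp at h2
  · push Not at h
    obtain ⟨i, hi, hk⟩ := h
    symm
    apply Finset.prod_eq_zero (Finset.mem_univ i)
    rw [if_pos]
    refine ⟨hi, ?_⟩
    simpa using hk

theorem ind_insert (i : ι) (A : Finset ι) (κ : ι → Bool) :
    ind (insert i A) κ = (if κ i = false then 1 else 0) * ind A κ := by
  unfold ind
  simp only [Finset.forall_mem_insert]
  by_cases h1 : κ i = false <;> by_cases h2 : ∀ a ∈ A, κ a = false <;> simp [h1, h2]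

theorem Ex_prod (p : ℝ) (g : ι → Bool → ℝ) :
    Ex p (fun κ => ∏ i, g i (κ i)) = ∏ i, (p * g i true + (1 - p) * g i false) := by
  unfold Ex wt
  have : ∀ i : ι, p * g i true + (1 - p) * g i false =
      ∑ b : Bool, (if b = true then p else 1 - p) * g i b := by
    intro i
    rw [Fintype.sum_bool]
    simp
  rw [Finset.prod_congr rfl (fun i _ => this i), Fintype.prod_sum]
  apply Finset.sum_congr rfl
  intro κ _
  rw [← Finset.prod_mul_distrib]

theorem Ex_add (p : ℝ) (f g : (ι → Bool) → ℝ) :
    Ex p (fun κ => f κ + g κ) = Ex p f + Ex p g := by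
  unfold Ex
  rw [← Finset.sum_add_distrib]
  exact Finset.sum_congr rfl fun κ _ => by ring

theorem Ex_smul (p c : ℝ) (f : (ι → Bool) → ℝ) :
    Ex p (fun κ => c * f κ) = c * Ex p f := by
  unfold Ex
  rw [Finset.mul_sum]
  exact Finset.sum_congr rfl fun κ _ => by ring

theorem Av_add (p : ℝ) (V : Finset ι) (f g : (ι → Bool) → ℝ) (κ : ι → Bool) :
    Av p V (fun κ => f κ + g κ) κ = Av p V f κ + Av p V g κ := Ex_add p _ _

theorem Av_smul (p c : ℝ) (V : Finset ι) (f : (ι → Bool) → ℝ) (κ : ι → Bool) :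
    Av p V (fun κ => c * f κ) κ = c * Av p V f κ := Ex_smul p c _

/-- the bilinear form of the noise -/
noncomputable def BB (p ρ : ℝ) (F H : (ι → Bool) → ℝ) : ℝ :=
  ∑ V : Finset ι, ρ ^ V.card * (1 - ρ) ^ (Fintype.card ι - V.card) *
    Ex p (fun κ => Av p V F κ * Av p V H κ)

theorem BB_add (p ρ : ℝ) (F G H : (ι → Bool) → ℝ) :
    BB p ρ (fun κ => F κ + G κ) H = BB p ρ F H + BB p ρ G H := by
  unfold BB
  rw [← Finset.sum_add_distrib]
  apply Finset.sum_congr rfl
  intro V _
  rw [← mul_add, ← Ex_add]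
  congr 1
  apply congrArg
  funext κ
  rw [Av_add]
  ring

theorem BB_smul (p ρ c : ℝ) (F H : (ι → Bool) → ℝ) :
    BB p ρ (fun κ => c * F κ) H = c * BB p ρ F H := by
  unfold BB
  rw [Finset.mul_sum]
  apply Finset.sum_congr rfl
  intro V _
  have h : Ex p (fun κ => Av p V (fun κ => c * F κ) κ * Av p V H κ) =
      c * Ex p (fun κ => Av p V F κ * Av p V H κ) := by
    rw [← Ex_smul]
    apply congrArg
    funext κ
    rw [Av_smul]
    ring
  rw [h]
  ring

theorem BB_comm (p ρ : ℝ) (F H : (ι → Bool) → ℝ) : BB p ρ F H = BB p ρ H F := by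
  unfold BB
  apply Finset.sum_congr rfl
  intro V _
  congr 1
  apply congrArg
  funext κ
  ring

theorem BB_self (p ρ : ℝ) (F : (ι → Bool) → ℝ) : BB p ρ F F = SS p F ρ := by
  unfold BB SS QQ
  apply Finset.sum_congr rfl
  intro V _
  congr 1
  apply congrArg
  funext κ
  ring

theorem Av_ind (p : ℝ) (V A : Finset ι) (κ : ι → Bool) :
    Av p V (ind A) κ = ∏ i, (if i ∈ V then (if i ∈ A ∧ κ i = true then (0 : ℝ) else 1) else
      (if i ∈ A then 1 - p else 1)) := by
  unfold Av
  have : (fun κ' => ind A (mix V κ κ')) = fun κ' : ι → Bool =>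
      ∏ i, (fun (i : ι) (b : Bool) => if i ∈ V then (if i ∈ A ∧ κ i = true then (0 : ℝ) else 1)
        else (if i ∈ A ∧ b = true then (0 : ℝ) else 1)) i (κ' i) := by
    funext κ'
    rw [ind_prod]
    apply Finset.prod_congr rfl
    intro i _
    unfold mix
    by_cases h : i ∈ V <;> simp [h]
  rw [this]
  refine (Ex_prod p (fun (i : ι) (b : Bool) => if i ∈ V then
    (if i ∈ A ∧ κ i = true then (0 : ℝ) else 1) else
    (if i ∈ A ∧ b = true then (0 : ℝ) else 1))).trans ?_
  apply Finset.prod_congr rfl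
  intro i _
  by_cases h : i ∈ V
  · simp only [h, if_true]
    ring
  · by_cases h2 : i ∈ A
    · simp [h, h2]
    · simp [h, h2]

theorem BB_ind (p ρ : ℝ) (A B : Finset ι) :
    BB p ρ (ind A) (ind B) = (1 - p) ^ (A \ B).card * (1 - p) ^ (B \ A).card *
      ((1 - p) * (ρ + (1 - ρ) * (1 - p))) ^ (A ∩ B).card := by
  have h1 : ∀ V : Finset ι, ρ ^ V.card * (1 - ρ) ^ (Fintype.card ι - V.card) *
      Ex p (fun κ => Av p V (ind A) κ * Av p V (ind B) κ) =
      (∏ i ∈ V, (ρ * (if i ∈ A ∪ B then 1 - p else 1))) *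
      ∏ i ∈ Vᶜ, ((1 - ρ) * ((if i ∈ A then 1 - p else 1) * (if i ∈ B then 1 - p else 1))) := by
    intro V
    have h2 : (fun κ : ι → Bool => Av p V (ind A) κ * Av p V (ind B) κ) = fun κ =>
        ∏ i, (fun (i : ι) (b : Bool) => if i ∈ V then
          (if i ∈ A ∪ B ∧ b = true then (0 : ℝ) else 1) else
          ((if i ∈ A then 1 - p else 1) * (if i ∈ B then 1 - p else 1))) i (κ i) := by
      funext κ
      rw [Av_ind, Av_ind, ← Finset.prod_mul_distrib]
      apply Finset.prod_congr rfl
      intro i _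
      by_cases h : i ∈ V
      · by_cases hA : i ∈ A <;> by_cases hB : i ∈ B <;> by_cases hk : κ i = true <;>
          simp [h, hA, hB, hk]
      · simp [h]
    rw [h2]
    have hE := Ex_prod p (fun (i : ι) (b : Bool) => if i ∈ V then
          (if i ∈ A ∪ B ∧ b = true then (0 : ℝ) else 1) else
          ((if i ∈ A then 1 - p else 1) * (if i ∈ B then 1 - p else 1)))
    have h3 : ∀ i : ι, (p * (fun (i : ι) (b : Bool) => if i ∈ V then
          (if i ∈ A ∪ B ∧ b = true then (0 : ℝ) else 1) else
          ((if i ∈ A then 1 - p else 1) * (if i ∈ B then 1 - p else 1))) i true +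
        (1 - p) * (fun (i : ι) (b : Bool) => if i ∈ V then
          (if i ∈ A ∪ B ∧ b = true then (0 : ℝ) else 1) else
          ((if i ∈ A then 1 - p else 1) * (if i ∈ B then 1 - p else 1))) i false) =
        if i ∈ V then (if i ∈ A ∪ B then 1 - p else 1) else
          ((if i ∈ A then 1 - p else 1) * (if i ∈ B then 1 - p else 1)) := by
      intro i
      by_cases h : i ∈ V
      · by_cases hA : i ∈ A ∪ B
        · simp only [h, hA, if_true, true_and, Bool.false_eq_true, if_false]
          ring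
        · simp only [h, hA, if_true, false_and, if_false]
          ring
      · simp only [h, if_false]
        ring
    rw [Finset.prod_congr rfl (fun i _ => h3 i), Finset.prod_ite] at hE
    rw [hE]
    have e1 : (univ.filter (fun i => i ∈ V)) = V := by ext i; simp
    have e2 : (univ.filter (fun i => ¬ i ∈ V)) = Vᶜ := by ext i; simp
    have r1 : ∏ i ∈ V, (ρ * (if i ∈ A ∪ B then 1 - p else 1)) =
        ρ ^ V.card * ∏ i ∈ V, (if i ∈ A ∪ B then 1 - p else 1) := by
      rw [Finset.prod_mul_distrib, Finset.prod_const]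
    have r2 : ∏ i ∈ Vᶜ, ((1 - ρ) * ((if i ∈ A then 1 - p else 1) *
        (if i ∈ B then 1 - p else 1))) = (1 - ρ) ^ (Fintype.card ι - V.card) *
        ∏ i ∈ Vᶜ, ((if i ∈ A then 1 - p else 1) * (if i ∈ B then 1 - p else 1)) := by
      rw [Finset.prod_mul_distrib, Finset.prod_const, Finset.card_compl]
    rw [e1, e2, r1, r2]
    ring
  unfold BB
  rw [Finset.sum_congr rfl (fun V _ => h1 V), ← Fintype.prod_add]
  have h4 : ∀ i : ι, (ρ * (if i ∈ A ∪ B then 1 - p else 1) +
      (1 - ρ) * ((if i ∈ A then 1 - p else 1) * (if i ∈ B then 1 - p else 1))) =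
      (if i ∈ A \ B then 1 - p else 1) * (if i ∈ B \ A then 1 - p else 1) *
      (if i ∈ A ∩ B then ((1 - p) * (ρ + (1 - ρ) * (1 - p))) else 1) := by
    intro i
    by_cases hA : i ∈ A <;> by_cases hB : i ∈ B <;> simp [hA, hB] <;> ring
  rw [Finset.prod_congr rfl (fun i _ => h4 i), Finset.prod_mul_distrib, Finset.prod_mul_distrib,
    Finset.prod_ite_mem, Finset.prod_ite_mem, Finset.prod_ite_mem]
  simp only [Finset.univ_inter, Finset.prod_const]

theorem Ex_ind (p : ℝ) (A : Finset ι) : Ex p (ind A) = (1 - p) ^ A.card := by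
  have : (ind A : (ι → Bool) → ℝ) = fun κ =>
      ∏ i, (fun (i : ι) (b : Bool) => if i ∈ A ∧ b = true then (0 : ℝ) else 1) i (κ i) := by
    funext κ
    rw [ind_prod]
  rw [this]
  refine (Ex_prod p (fun (i : ι) (b : Bool) => if i ∈ A ∧ b = true then (0 : ℝ) else 1)).trans ?_
  have h4 : ∀ i : ι, (p * (fun (i : ι) (b : Bool) => if i ∈ A ∧ b = true then (0 : ℝ) else 1)
      i true + (1 - p) * (fun (i : ι) (b : Bool) => if i ∈ A ∧ b = true then (0 : ℝ) else 1)
      i false) = if i ∈ A then 1 - p else 1 := by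
    intro i
    by_cases hA : i ∈ A <;> simp [hA]
  rw [Finset.prod_congr rfl (fun i _ => h4 i), Finset.prod_ite_mem]
  simp only [Finset.univ_inter, Finset.prod_const]

/-- the indicators of avoidance span all functions -/
theorem span_ind (F : (ι → Bool) → ℝ) :
    F ∈ Submodule.span ℝ (Set.range (ind : Finset ι → (ι → Bool) → ℝ)) := by
  have h1 : ∀ (a : ι → Bool) (S A : Finset ι),
      (fun κ : ι → Bool => (∏ i ∈ S, (if κ i = a i then (1 : ℝ) else 0)) * ind A κ) ∈
        Submodule.span ℝ (Set.range (ind : Finset ι → (ι → Bool) → ℝ)) := by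
    intro a S
    induction S using Finset.induction_on with
    | empty =>
      intro A
      have : (fun κ : ι → Bool => (∏ i ∈ (∅ : Finset ι), (if κ i = a i then (1 : ℝ) else 0)) *
          ind A κ) = ind A := by
        funext κ
        simp
      rw [this]
      exact Submodule.subset_span ⟨A, rfl⟩
    | insert i S hi ih =>
      intro A
      by_cases ha : a i = false
      · have : (fun κ : ι → Bool => (∏ i ∈ insert i S, (if κ i = a i then (1 : ℝ) else 0)) *
            ind A κ) = fun κ : ι → Bool => (∏ i ∈ S, (if κ i = a i then (1 : ℝ) else 0)) *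
            ind (insert i A) κ := by
          funext κ
          rw [Finset.prod_insert hi, ind_insert, ha]
          ring
        rw [this]
        exact ih _
      · have ha' : a i = true := by simpa using ha
        have : (fun κ : ι → Bool => (∏ i ∈ insert i S, (if κ i = a i then (1 : ℝ) else 0)) *
            ind A κ) = (fun κ : ι → Bool => (∏ i ∈ S, (if κ i = a i then (1 : ℝ) else 0)) *
            ind A κ) - fun κ : ι → Bool => (∏ i ∈ S, (if κ i = a i then (1 : ℝ) else 0)) *
            ind (insert i A) κ := by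
          funext κ
          rw [Pi.sub_apply, Finset.prod_insert hi, ind_insert, ha']
          by_cases hk : κ i = true
          · simp [hk]
          · have hk' : κ i = false := by simpa using hk
            simp [hk']
        rw [this]
        exact Submodule.sub_mem _ (ih _) (ih _)
  have h2 : F = ∑ a : ι → Bool, F a • (fun κ : ι → Bool =>
      (∏ i ∈ univ, (if κ i = a i then (1 : ℝ) else 0)) * ind ∅ κ) := by
    funext κ
    rw [Finset.sum_apply, Finset.sum_eq_single κ]
    · simp [ind]
    · intro b _ hb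
      have : ∃ i, κ i ≠ b i := by
        by_contra hcon
        push Not at hcon
        exact hb (funext fun i => (hcon i).symm)
      obtain ⟨i, hi⟩ := this
      rw [Pi.smul_apply, Finset.prod_eq_zero (Finset.mem_univ i) (if_neg hi)]
      simp
    · intro h
      exact absurd (Finset.mem_univ κ) h
  rw [h2]
  exact Submodule.sum_mem _ fun a _ => Submodule.smul_mem _ _ (h1 a univ ∅)

theorem d3 : S_D3 := by
  intro ι _ _ Ω _ P _ X Y p ρ hp0 hp1 hρ0 hρ1 hX hY hAB F
  have mX : Measurable X := measurable_pi_iff.2 hX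
  have mY : Measurable Y := measurable_pi_iff.2 hY
  have mF : ∀ G : (ι → Bool) → ℝ, Measurable G := fun G => measurable_of_countable G
  have iFH : ∀ G H : (ι → Bool) → ℝ, Integrable (fun ω => G (X ω) * H (Y ω)) P := by
    intro G H
    refine Integrable.of_bound (((mF G).comp mX).mul ((mF H).comp mY)).aestronglyMeasurable
      ((∑ κ, |G κ|) * ∑ κ, |H κ|) (Filter.Eventually.of_forall fun ω => ?_)
    rw [Real.norm_eq_abs, abs_mul]
    exact mul_le_mul (Finset.single_le_sum (f := fun κ => |G κ|) (fun _ _ => abs_nonneg _)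
      (Finset.mem_univ _)) (Finset.single_le_sum (f := fun κ => |H κ|) (fun _ _ => abs_nonneg _)
      (Finset.mem_univ _)) (abs_nonneg _) (Finset.sum_nonneg fun _ _ => abs_nonneg _)
  have base : ∀ A B : Finset ι, ∫ ω, ind A (X ω) * ind B (Y ω) ∂P =
      BB p ρ (ind A) (ind B) := by
    intro A B
    rw [BB_ind, ← hAB A B]
    have hs : MeasurableSet {ω | (∀ c ∈ A, X ω c = false) ∧ (∀ c ∈ B, Y ω c = false)} := by
      have e : {ω | (∀ c ∈ A, X ω c = false) ∧ (∀ c ∈ B, Y ω c = false)} =
          X ⁻¹' {κ | ∀ c ∈ A, κ c = false} ∩ Y ⁻¹' {κ | ∀ c ∈ B, κ c = false} := rfl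
      rw [e]
      exact (mX (Set.toFinite _).measurableSet).inter (mY (Set.toFinite _).measurableSet)
    rw [← integral_indicator_one hs]
    apply integral_congr_ae
    refine Filter.Eventually.of_forall fun ω => ?_
    simp only [ind, Set.indicator, Set.mem_ofPred_eq, Pi.one_apply]
    by_cases h1 : ∀ c ∈ A, X ω c = false
    · by_cases h2 : ∀ c ∈ B, Y ω c = false
      · rw [if_pos h1, if_pos h2, if_pos ⟨h1, h2⟩, mul_one]
      · rw [if_neg h2, if_neg (show ¬ ((∀ c ∈ A, X ω c = false) ∧
          (∀ c ∈ B, Y ω c = false)) from fun h => h2 h.2), mul_zero]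
    · rw [if_neg h1, if_neg (show ¬ ((∀ c ∈ A, X ω c = false) ∧
        (∀ c ∈ B, Y ω c = false)) from fun h => h1 h.1), zero_mul]
  have s1 : ∀ (G : (ι → Bool) → ℝ) (B : Finset ι), ∫ ω, G (X ω) * ind B (Y ω) ∂P =
      BB p ρ G (ind B) := by
    intro G B
    refine Submodule.span_induction (p := fun G _ => ∫ ω, G (X ω) * ind B (Y ω) ∂P =
      BB p ρ G (ind B)) ?_ ?_ ?_ ?_ (span_ind G)
    · rintro _ ⟨A, rfl⟩
      exact base A B
    · have := BB_smul p ρ 0 (0 : (ι → Bool) → ℝ) (ind B)
      simp only [zero_mul] at this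
      simp only [Pi.zero_apply, zero_mul, integral_zero]
      exact this.symm
    · intro G H _ _ h1 h2
      have : (fun ω => (G + H) (X ω) * ind B (Y ω)) = fun ω =>
          G (X ω) * ind B (Y ω) + H (X ω) * ind B (Y ω) := by
        funext ω
        rw [Pi.add_apply]
        ring
      rw [this, integral_add (iFH _ _) (iFH _ _), h1, h2, ← BB_add]
      rfl
    · intro c G _ h1
      have : (fun ω => (c • G) (X ω) * ind B (Y ω)) = fun ω =>
          c * (G (X ω) * ind B (Y ω)) := by
        funext ω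
        rw [Pi.smul_apply, smul_eq_mul]
        ring
      rw [this, integral_const_mul, h1, ← BB_smul]
      rfl
  have s2 : ∀ (G H : (ι → Bool) → ℝ), ∫ ω, G (X ω) * H (Y ω) ∂P = BB p ρ G H := by
    intro G H
    refine Submodule.span_induction (p := fun H _ => ∫ ω, G (X ω) * H (Y ω) ∂P =
      BB p ρ G H) ?_ ?_ ?_ ?_ (span_ind H)
    · rintro _ ⟨A, rfl⟩
      exact s1 G A
    · have := BB_smul p ρ 0 (0 : (ι → Bool) → ℝ) G
      simp only [zero_mul] at this
      simp only [Pi.zero_apply, mul_zero, integral_zero]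
      rw [BB_comm]
      exact this.symm
    · intro H K _ _ h1 h2
      have : (fun ω => G (X ω) * (H + K) (Y ω)) = fun ω =>
          G (X ω) * H (Y ω) + G (X ω) * K (Y ω) := by
        funext ω
        rw [Pi.add_apply]
        ring
      rw [this, integral_add (iFH _ _) (iFH _ _), h1, h2, BB_comm p ρ G H, BB_comm p ρ G K,
        BB_comm p ρ G (H + K), ← BB_add]
      rfl
    · intro c H _ h1
      have : (fun ω => G (X ω) * (c • H) (Y ω)) = fun ω =>
          c * (G (X ω) * H (Y ω)) := by
        funext ω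
        rw [Pi.smul_apply, smul_eq_mul]
        ring
      rw [this, integral_const_mul, h1, BB_comm p ρ G H, BB_comm p ρ G (c • H), ← BB_smul]
      rfl
  have ind0 : ∀ κ : ι → Bool, ind (∅ : Finset ι) κ = 1 := fun κ => by simp [ind]
  have e0 : ∀ A : Finset ι, BB p ρ (ind A) (ind ∅) = Ex p (ind A) := by
    intro A
    rw [BB_ind, Ex_ind]
    simp
  have e1 : ∀ G : (ι → Bool) → ℝ, BB p ρ G (ind ∅) = Ex p G := by
    intro G
    refine Submodule.span_induction (p := fun G _ => BB p ρ G (ind ∅) = Ex p G)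
      ?_ ?_ ?_ ?_ (span_ind G)
    · rintro _ ⟨A, rfl⟩
      exact e0 A
    · have h1 := BB_smul p ρ 0 (0 : (ι → Bool) → ℝ) (ind ∅)
      have h2 := Ex_smul p 0 (0 : (ι → Bool) → ℝ)
      simp only [zero_mul] at h1 h2
      exact h1.trans h2.symm
    · intro G H _ _ h1 h2
      have := BB_add p ρ G H (ind ∅)
      rw [h1, h2, ← Ex_add] at this
      exact this
    · intro c G _ h1
      have := BB_smul p ρ c G (ind ∅)
      rw [h1, ← Ex_smul] at this
      exact this
  refine ⟨?_, ?_, ?_⟩
  · rw [s2 F F, BB_self]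
  · rw [← e1 F, ← s2 F (ind ∅)]
    simp only [ind0, mul_one]
  · rw [← e1 F, BB_comm, ← s2 (ind ∅) F]
    simp only [ind0, one_mul]

end Pool.Agent.Q234.PN
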