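import Pool.Agent.Q295.PN.StmD

/-!
# Project PN, job D5: the discretisation error
-/

set_option autoImplicit false
set_option linter.deprecated false

namespace Pool.Agent.Q234.PN.D5

open MeasureTheory ProbabilityTheory Finset
open Pool.Agent.Q295.PN
open scoped ENNReal NNReal

/-- the type of the marks -/
abbrev Tr : Type := ((ℝ × ℝ) × ℝ) × (ℝ × ℝ)

/-- the point with a label -/
def pt (z : ℕ → Tr) : ℕ ⊕ ℕ → ℝ × ℝ
  | Sum.inl i => (z i).1.1
  | Sum.inr j => (z j).2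

/-- same column or same row -/
def Same (n M K : ℕ) [NeZero M] [NeZero K] (u v : ℝ × ℝ) : Prop :=
  cl n M u.1 = cl n M v.1 ∨ cl n K u.2 = cl n K v.2

/-- the labels which are used -/
def labels (c : ℕ × ℕ) : Finset (ℕ ⊕ ℕ) := (range c.1).disjSum (range c.2)

/-- two labels in the same column or row -/
def Bad (n M K : ℕ) [NeZero M] [NeZero K] (c : ℕ × ℕ) (z : ℕ → Tr) : Prop :=
  ∃ a ∈ labels c, ∃ b ∈ labels c, a ≠ b ∧ Same n M K (pt z a) (pt z b)

theorem poisson_eq (r : ℝ≥0) : (poissonPMF r).toMeasure = poissonMeasure r := by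
  apply Measure.ext_of_singleton
  intro k
  rw [PMF.toMeasure_apply_singleton _ _ (measurableSet_singleton k), poissonMeasure_singleton]
  rfl

theorem int_exp (r : ℝ≥0) :
    Integrable (fun k : ℕ => Real.exp (k : ℝ)) (poissonPMF r).toMeasure := by
  rw [poisson_eq, integrable_poissonMeasure_iff]
  have h := (Real.summable_pow_div_factorial ((r : ℝ) * Real.exp 1)).mul_left (Real.exp (-r))
  refine h.congr fun k => ?_
  rw [Real.norm_eq_abs, abs_of_pos (Real.exp_pos _), mul_pow, ← Real.exp_nat_mul, mul_one]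
  ring

theorem int_four (r s : ℝ≥0) :
    Integrable (fun c : ℕ × ℕ => ((c.1 : ℝ) + c.2) ^ 4)
      ((poissonPMF r).toMeasure.prod (poissonPMF s).toMeasure) := by
  have h := ((int_exp r).mul_prod (int_exp s)).const_mul 24
  refine Integrable.mono' h (measurable_of_countable _).aestronglyMeasurable
    (Filter.Eventually.of_forall fun c => ?_)
  have h0 : (0 : ℝ) ≤ (c.1 : ℝ) + c.2 := by positivity
  rw [Real.norm_eq_abs, abs_of_nonneg (by positivity), ← Real.exp_add]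
  have h1 := Real.pow_div_factorial_le_exp ((c.1 : ℝ) + c.2) h0 4
  have h2 : ((Nat.factorial 4 : ℕ) : ℝ) = 24 := by norm_num [Nat.factorial]
  rw [h2, div_le_iff₀ (by norm_num)] at h1
  linarith

theorem card_labels (c : ℕ × ℕ) : (labels c).card = c.1 + c.2 := by
  unfold labels
  rw [Finset.card_disjSum, Finset.card_range, Finset.card_range]

section

variable (n M K : ℕ) [NeZero M] [NeZero K]

theorem meas_same (hc : Measurable (cell n M K)) (a b : ℕ ⊕ ℕ) :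
    MeasurableSet {z : ℕ → Tr | Same n M K (pt z a) (pt z b)} := by
  have hp : ∀ a : ℕ ⊕ ℕ, Measurable (fun z : ℕ → Tr => pt z a) := by
    intro a
    rcases a with i | j
    · exact (measurable_pi_apply i).fst.fst
    · exact (measurable_pi_apply j).snd
  have h1 : ∀ a : ℕ ⊕ ℕ, Measurable (fun z : ℕ → Tr => cl n M (pt z a).1) := fun a =>
    (hc.comp (hp a)).fst
  have h2 : ∀ a : ℕ ⊕ ℕ, Measurable (fun z : ℕ → Tr => cl n K (pt z a).2) := fun a =>
    (hc.comp (hp a)).snd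
  exact (measurableSet_eq_fun (h1 a) (h1 b)).union (measurableSet_eq_fun (h2 a) (h2 b))

theorem bad_eq (c : ℕ × ℕ) : {z : ℕ → Tr | Bad n M K c z} =
    ⋃ a ∈ labels c, ⋃ b ∈ labels c, {z | a ≠ b ∧ Same n M K (pt z a) (pt z b)} := by
  ext z
  simp only [Bad, Set.mem_ofPred_eq, Set.mem_iUnion, exists_prop]

theorem meas_ne_same (hc : Measurable (cell n M K)) (a b : ℕ ⊕ ℕ) :
    MeasurableSet {z : ℕ → Tr | a ≠ b ∧ Same n M K (pt z a) (pt z b)} := by
  have : {z : ℕ → Tr | a ≠ b ∧ Same n M K (pt z a) (pt z b)} =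
      {_z : ℕ → Tr | a ≠ b} ∩ {z : ℕ → Tr | Same n M K (pt z a) (pt z b)} := rfl
  rw [this]
  exact (MeasurableSet.const _).inter (meas_same n M K hc a b)

theorem meas_bad (hc : Measurable (cell n M K)) (c : ℕ × ℕ) :
    MeasurableSet {z : ℕ → Tr | Bad n M K c z} := by
  rw [bad_eq]
  exact Finset.measurableSet_biUnion _ fun a _ => Finset.measurableSet_biUnion _ fun b _ =>
    meas_ne_same n M K hc a b

/-- the probability of two labels in the same column or row -/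
theorem prob_bad (μ : Measure (ℕ → Tr)) (δ : ℝ≥0∞)
    (h : ∀ a b : ℕ ⊕ ℕ, a ≠ b → μ {z | Same n M K (pt z a) (pt z b)} ≤ δ) (c : ℕ × ℕ) :
    μ {z | Bad n M K c z} ≤ ((c.1 + c.2 : ℕ) : ℝ≥0∞) ^ 2 * δ := by
  rw [bad_eq]
  have h1 : ∀ a b : ℕ ⊕ ℕ, μ {z | a ≠ b ∧ Same n M K (pt z a) (pt z b)} ≤ δ := by
    intro a b
    by_cases hab : a = b
    · have : {z : ℕ → Tr | a ≠ b ∧ Same n M K (pt z a) (pt z b)} = ∅ := by
        ext z
        simp [hab]
      rw [this, measure_empty]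
      exact zero_le
    · exact (measure_mono (fun z hz => hz.2)).trans (h a b hab)
  calc μ (⋃ a ∈ labels c, ⋃ b ∈ labels c, {z | a ≠ b ∧ Same n M K (pt z a) (pt z b)})
      ≤ ∑ a ∈ labels c, μ (⋃ b ∈ labels c, {z | a ≠ b ∧ Same n M K (pt z a) (pt z b)}) :=
        measure_biUnion_finset_le _ _
    _ ≤ ∑ a ∈ labels c, ∑ b ∈ labels c, δ := by
        apply Finset.sum_le_sum
        intro a _
        refine (measure_biUnion_finset_le _ _).trans ?_
        exact Finset.sum_le_sum fun b _ => h1 a b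
    _ = ((c.1 + c.2 : ℕ) : ℝ≥0∞) ^ 2 * δ := by
        rw [Finset.sum_const, Finset.sum_const, card_labels, nsmul_eq_mul, nsmul_eq_mul,
          ← mul_assoc, pow_two]

theorem meas_int (hc : Measurable (cell n M K)) :
    Measurable (fun w : (ℕ × ℕ) × (ℕ → Tr) => ((w.1.1 + w.1.2 : ℕ) : ℝ≥0∞) ^ 2 *
      Set.indicator {w : (ℕ × ℕ) × (ℕ → Tr) | Bad n M K w.1 w.2} 1 w) := by
  have hB : MeasurableSet {w : (ℕ × ℕ) × (ℕ → Tr) | Bad n M K w.1 w.2} := by
    have : {w : (ℕ × ℕ) × (ℕ → Tr) | Bad n M K w.1 w.2} =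
        ⋃ c : ℕ × ℕ, ({c} : Set (ℕ × ℕ)) ×ˢ {z : ℕ → Tr | Bad n M K c z} := by
      ext w
      simp only [Set.mem_ofPred_eq, Set.mem_iUnion, Set.mem_prod, Set.mem_singleton_iff]
      constructor
      · intro h
        exact ⟨w.1, rfl, h⟩
      · rintro ⟨c, hc, h⟩
        rw [hc]
        exact h
    rw [this]
    exact MeasurableSet.iUnion fun c => (measurableSet_singleton c).prod (meas_bad n M K hc c)
  have hm1 : Measurable (fun w : (ℕ × ℕ) × (ℕ → Tr) => ((w.1.1 + w.1.2 : ℕ) : ℝ≥0∞) ^ 2) :=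
    (measurable_of_countable (fun c : ℕ × ℕ => ((c.1 + c.2 : ℕ) : ℝ≥0∞) ^ 2)).comp
      measurable_fst
  have hm2 : Measurable (Set.indicator {w : (ℕ × ℕ) × (ℕ → Tr) | Bad n M K w.1 w.2}
      (1 : (ℕ × ℕ) × (ℕ → Tr) → ℝ≥0∞)) := measurable_one.indicator hB
  exact hm1.mul hm2

/-- the main estimate -/
theorem main_est (ν : Measure (ℕ × ℕ)) [IsProbabilityMeasure ν] (μ : Measure (ℕ → Tr))
    [IsProbabilityMeasure μ] (δ : ℝ≥0∞) (hc : Measurable (cell n M K))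
    (h : ∀ a b : ℕ ⊕ ℕ, a ≠ b → μ {z | Same n M K (pt z a) (pt z b)} ≤ δ) :
    ∫⁻ w, ((w.1.1 + w.1.2 : ℕ) : ℝ≥0∞) ^ 2 *
      Set.indicator {w : (ℕ × ℕ) × (ℕ → Tr) | Bad n M K w.1 w.2} 1 w ∂(ν.prod μ) ≤
      δ * ∫⁻ c, ((c.1 + c.2 : ℕ) : ℝ≥0∞) ^ 4 ∂ν := by
  have hlp := lintegral_prod (μ := ν) (ν := μ)
    (fun w : (ℕ × ℕ) × (ℕ → Tr) => ((w.1.1 + w.1.2 : ℕ) : ℝ≥0∞) ^ 2 *
      Set.indicator {w : (ℕ × ℕ) × (ℕ → Tr) | Bad n M K w.1 w.2} 1 w)
    (meas_int n M K hc).aemeasurable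
  rw [hlp, ← lintegral_const_mul _ (measurable_of_countable _)]
  apply lintegral_mono
  intro c
  have e : ∀ z : ℕ → Tr, Set.indicator {w : (ℕ × ℕ) × (ℕ → Tr) | Bad n M K w.1 w.2}
      (1 : (ℕ × ℕ) × (ℕ → Tr) → ℝ≥0∞) (c, z) =
      Set.indicator {z : ℕ → Tr | Bad n M K c z} 1 z := fun z => rfl
  simp only [e]
  rw [lintegral_const_mul _ (measurable_one.indicator (meas_bad n M K hc c)),
    lintegral_indicator_one (meas_bad n M K hc c)]
  calc ((c.1 + c.2 : ℕ) : ℝ≥0∞) ^ 2 * μ {z | Bad n M K c z}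
      ≤ ((c.1 + c.2 : ℕ) : ℝ≥0∞) ^ 2 * (((c.1 + c.2 : ℕ) : ℝ≥0∞) ^ 2 * δ) :=
        mul_le_mul_right (prob_bad n M K μ δ h c) _
    _ = δ * ((c.1 + c.2 : ℕ) : ℝ≥0∞) ^ 4 := by ring

end

theorem d5 : S_D5 := by
  intro hD0 hD5a hD5b hD5c n t hn ht
  set ν : Measure (ℕ × ℕ) := ((poissonPMF ((n : NNReal) ^ 2)).toMeasure).prod
    ((poissonPMF (t * (n : NNReal) ^ 2)).toMeasure) with hν
  have hpν : IsProbabilityMeasure ν := by
    rw [hν, poisson_eq, poisson_eq]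
    infer_instance
  have hi4 : Integrable (fun c : ℕ × ℕ => ((c.1 : ℝ) + c.2) ^ 4) ν := int_four _ _
  set m : ℝ≥0∞ := ∫⁻ c, ((c.1 + c.2 : ℕ) : ℝ≥0∞) ^ 4 ∂ν with hm
  have hmtop : m ≠ ⊤ := by
    have h := hi4.lintegral_lt_top
    have e : ∀ c : ℕ × ℕ, ENNReal.ofReal (((c.1 : ℝ) + c.2) ^ 4) =
        ((c.1 + c.2 : ℕ) : ℝ≥0∞) ^ 4 := by
      intro c
      rw [ENNReal.ofReal_pow (by positivity), ← Nat.cast_add, ENNReal.ofReal_natCast]
    simp only [e] at h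
    exact h.ne
  obtain ⟨N₀, hN₀⟩ := exists_nat_gt (2 * m.toReal)
  refine ⟨N₀ + 1, fun M K _ _ hM hK Ω _ P C Z hS => ?_⟩
  have hP : IsProbabilityMeasure P := hS.prob
  obtain ⟨-, hcell, -⟩ := hD0 n M K hn
  set Z' : Ω → ℕ → Tr := fun ω i => Z i ω with hZ'
  have mZ' : Measurable Z' := measurable_pi_lambda _ fun i => hS.mZ i
  have hδ0 : (0 : ℝ) ≤ 1 / M + 1 / K := by positivity
  set δ : ℝ≥0∞ := ENNReal.ofReal (1 / M + 1 / K) with hδ
  have hMpos : (0 : ℝ) < M := by exact_mod_cast NeZero.pos M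
  have hKpos : (0 : ℝ) < K := by exact_mod_cast NeZero.pos K
  have hMN : (N₀ : ℝ) + 1 ≤ M := by exact_mod_cast hM
  have hKN : (N₀ : ℝ) + 1 ≤ K := by exact_mod_cast hK
  have hδm : δ * m ≤ 1 := by
    have e : m = ENNReal.ofReal m.toReal := (ENNReal.ofReal_toReal hmtop).symm
    rw [e, hδ, ← ENNReal.ofReal_mul hδ0]
    rw [← ENNReal.ofReal_one]
    apply ENNReal.ofReal_le_ofReal
    have h0 : (0 : ℝ) ≤ m.toReal := ENNReal.toReal_nonneg
    have h1 : 1 / (M : ℝ) * m.toReal ≤ 1 / 2 := by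
      rw [div_mul_eq_mul_div, one_mul, div_le_iff₀ hMpos]
      linarith
    have h2 : 1 / (K : ℝ) * m.toReal ≤ 1 / 2 := by
      rw [div_mul_eq_mul_div, one_mul, div_le_iff₀ hKpos]
      linarith
    linarith [add_mul (1 / (M : ℝ)) (1 / K) m.toReal]
  have hpμ : IsProbabilityMeasure (Measure.map Z' P) :=
    Measure.isProbabilityMeasure_map mZ'.aemeasurable
  have hmap : Measure.map (fun ω => (C ω, Z' ω)) P = ν.prod (Measure.map Z' P) := by
    have h := (indepFun_iff_map_prod_eq_prod_map_map hS.mC.aemeasurable mZ'.aemeasurable).1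
      hS.indCZ
    rw [hS.lawC] at h
    exact h
  obtain ⟨c1, c2, c3⟩ := hD5c hD0 n M K t P C Z hn hS
  have hsame : ∀ a b : ℕ ⊕ ℕ, a ≠ b →
      Measure.map Z' P {z | Same n M K (pt z a) (pt z b)} ≤ δ := by
    have key : ∀ (S : Set Ω), P.real S ≤ 1 / M + 1 / K → P S ≤ δ := by
      intro S h
      rw [hδ, ← ENNReal.ofReal_toReal (measure_ne_top P S)]
      exact ENNReal.ofReal_le_ofReal h
    intro a b hab
    rw [Measure.map_apply mZ' (meas_same n M K hcell a b)]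
    apply key
    rcases a with i | i <;> rcases b with j | j
    · exact c1 i j (fun h => hab (by rw [h]))
    · exact c3 i j
    · have e : (Z' ⁻¹' {z | Same n M K (pt z (Sum.inr i)) (pt z (Sum.inl j))}) =
          {ω | cl n M (Z j ω).1.1.1 = cl n M (Z i ω).2.1 ∨
            cl n K (Z j ω).1.1.2 = cl n K (Z i ω).2.2} := by
        ext ω
        constructor
        · rintro (h | h)
          · exact Or.inl h.symm
          · exact Or.inr h.symm
        · rintro (h | h)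
          · exact Or.inl h.symm
          · exact Or.inr h.symm
      rw [e]
      exact c3 j i
    · exact c2 i j (fun h => hab (by rw [h]))
  have hest : ∫⁻ ω, (((C ω).1 + (C ω).2 : ℕ) : ℝ≥0∞) ^ 2 *
      Set.indicator {w : (ℕ × ℕ) × (ℕ → Tr) | Bad n M K w.1 w.2} 1 (C ω, Z' ω) ∂P ≤ 1 := by
    have h1 := main_est n M K ν (Measure.map Z' P) δ hcell hsame
    rw [← hmap, lintegral_map (meas_int n M K hcell) (hS.mC.prodMk mZ')] at h1
    exact h1.trans hδm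
  have gen : ∀ f : Ω → ℝ, (∀ ω, |f ω| ≤ (((C ω).1 + (C ω).2 : ℕ) : ℝ)) →
      (∀ ω, ¬ Bad n M K (C ω) (Z' ω) → f ω = 0) → ∫ ω, (f ω) ^ 2 ∂P ≤ 1 := by
    intro f hf1 hf2
    by_cases hmeas : AEStronglyMeasurable (fun ω => (f ω) ^ 2) P
    · rw [integral_eq_lintegral_of_nonneg_ae (Filter.Eventually.of_forall fun ω => sq_nonneg _)
        hmeas]
      apply ENNReal.toReal_le_of_le_ofReal zero_le_one
      rw [ENNReal.ofReal_one]
      refine le_trans (lintegral_mono fun ω => ?_) hest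
      by_cases hB : Bad n M K (C ω) (Z' ω)
      · have e1 : Set.indicator {w : (ℕ × ℕ) × (ℕ → Tr) | Bad n M K w.1 w.2}
            (1 : (ℕ × ℕ) × (ℕ → Tr) → ℝ≥0∞) (C ω, Z' ω) = 1 :=
          Set.indicator_of_mem (s := {w : (ℕ × ℕ) × (ℕ → Tr) | Bad n M K w.1 w.2}) hB _
        rw [e1, mul_one, ← ENNReal.ofReal_natCast, ← ENNReal.ofReal_pow (Nat.cast_nonneg _)]
        apply ENNReal.ofReal_le_ofReal
        rw [← sq_abs]
        exact pow_le_pow_left₀ (abs_nonneg _) (hf1 ω) 2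
      · simp only [hf2 ω hB]
        simp
    · rw [integral_non_aestronglyMeasurable hmeas]
      exact zero_le_one
  have b1 : ∀ ω, LL (eta (C ω) (fun i => Z i ω)) ≤ (C ω).1 := fun ω =>
    (hD5b t n M K (C ω) (Z' ω)).1
  have b2 : ∀ ω, Lc (kap n M K (C ω) (fun i => Z i ω)) ≤ (C ω).1 := fun ω =>
    (hD5b t n M K (C ω) (Z' ω)).2.1
  have b3 : ∀ ω, LL (etat t (C ω) (fun i => Z i ω)) ≤ (C ω).1 + (C ω).2 := fun ω =>
    (hD5b t n M K (C ω) (Z' ω)).2.2.1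
  have b4 : ∀ ω, Lc (kapt t n M K (C ω) (fun i => Z i ω)) ≤ (C ω).1 + (C ω).2 := fun ω =>
    (hD5b t n M K (C ω) (Z' ω)).2.2.2.1
  have g1 : ∀ ω, ¬ Bad n M K (C ω) (Z' ω) → ∀ i < (C ω).1, ∀ j < (C ω).1, i ≠ j →
      cl n M (Z' ω i).1.1.1 ≠ cl n M (Z' ω j).1.1.1 ∧
      cl n K (Z' ω i).1.1.2 ≠ cl n K (Z' ω j).1.1.2 := by
    intro ω hB i hi j hj hij
    have hh : ¬ Same n M K (pt (Z' ω) (Sum.inl i)) (pt (Z' ω) (Sum.inl j)) := fun h =>
      hB ⟨Sum.inl i, Finset.inl_mem_disjSum.2 (mem_range.2 hi), Sum.inl j,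
        Finset.inl_mem_disjSum.2 (mem_range.2 hj), fun h => hij (Sum.inl_injective h), h⟩
    exact ⟨fun h => hh (Or.inl h), fun h => hh (Or.inr h)⟩
  have g2 : ∀ ω, ¬ Bad n M K (C ω) (Z' ω) → ∀ i < (C ω).2, ∀ j < (C ω).2, i ≠ j →
      cl n M (Z' ω i).2.1 ≠ cl n M (Z' ω j).2.1 ∧
      cl n K (Z' ω i).2.2 ≠ cl n K (Z' ω j).2.2 := by
    intro ω hB i hi j hj hij
    have hh : ¬ Same n M K (pt (Z' ω) (Sum.inr i)) (pt (Z' ω) (Sum.inr j)) := fun h =>
      hB ⟨Sum.inr i, Finset.inr_mem_disjSum.2 (mem_range.2 hi), Sum.inr j,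
        Finset.inr_mem_disjSum.2 (mem_range.2 hj), fun h => hij (Sum.inr_injective h), h⟩
    exact ⟨fun h => hh (Or.inl h), fun h => hh (Or.inr h)⟩
  have g3 : ∀ ω, ¬ Bad n M K (C ω) (Z' ω) → ∀ i < (C ω).1, ∀ j < (C ω).2,
      cl n M (Z' ω i).1.1.1 ≠ cl n M (Z' ω j).2.1 ∧
      cl n K (Z' ω i).1.1.2 ≠ cl n K (Z' ω j).2.2 := by
    intro ω hB i hi j hj
    have hh : ¬ Same n M K (pt (Z' ω) (Sum.inl i)) (pt (Z' ω) (Sum.inr j)) := fun h =>
      hB ⟨Sum.inl i, Finset.inl_mem_disjSum.2 (mem_range.2 hi), Sum.inr j,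
        Finset.inr_mem_disjSum.2 (mem_range.2 hj), fun h => by simp at h, h⟩
    exact ⟨fun h => hh (Or.inl h), fun h => hh (Or.inr h)⟩
  have hi4P : Integrable (fun ω => (((C ω).1 : ℝ) + (C ω).2) ^ 4) P := by
    have h : Integrable (fun c : ℕ × ℕ => ((c.1 : ℝ) + c.2) ^ 4) (Measure.map C P) := by
      rw [hS.lawC]
      exact hi4
    exact h.comp_measurable hS.mC
  have memlp : ∀ f : Ω → ℕ, Measurable (fun ω => (f ω : ℝ)) →
      (∀ ω, f ω ≤ (C ω).1 + (C ω).2) → MemLp (fun ω => (f ω : ℝ)) 2 P := by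
    intro f hf hb
    rw [memLp_two_iff_integrable_sq hf.aestronglyMeasurable]
    refine Integrable.mono' hi4P (hf.pow_const 2).aestronglyMeasurable
      (Filter.Eventually.of_forall fun ω => ?_)
    rw [Real.norm_eq_abs, abs_of_nonneg (sq_nonneg _)]
    have h1 : f ω ^ 2 ≤ ((C ω).1 + (C ω).2) ^ 4 := by
      refine (Nat.pow_le_pow_left (hb ω) 2).trans ?_
      rcases Nat.eq_zero_or_pos ((C ω).1 + (C ω).2) with h | h
      · rw [h]
        norm_num
      · exact Nat.pow_le_pow_right h (by norm_num)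
    exact_mod_cast h1
  refine ⟨memlp _ (hD5a t C Z hS.mC hS.mZ).1 (fun ω => (b1 ω).trans (Nat.le_add_right _ _)),
    memlp _ (hD5a t C Z hS.mC hS.mZ).2 b3, ?_, ?_⟩
  · apply gen
    · intro ω
      have h1 := b1 ω
      have h2 := b2 ω
      have h1' : ((LL (eta (C ω) (fun i => Z i ω)) : ℕ) : ℝ) ≤ (C ω).1 := by exact_mod_cast h1
      have h2' : ((Lc (kap n M K (C ω) (fun i => Z i ω)) : ℕ) : ℝ) ≤ (C ω).1 := by
        exact_mod_cast h2
      have h3 : (0 : ℝ) ≤ ((LL (eta (C ω) (fun i => Z i ω)) : ℕ) : ℝ) := Nat.cast_nonneg _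
      have h4 : (0 : ℝ) ≤ ((Lc (kap n M K (C ω) (fun i => Z i ω)) : ℕ) : ℝ) := Nat.cast_nonneg _
      have h5 : (0 : ℝ) ≤ ((C ω).2 : ℝ) := Nat.cast_nonneg _
      rw [Nat.cast_add, abs_le]
      constructor <;> linarith
    · intro ω hB
      rw [(hD5b t n M K (C ω) (Z' ω)).2.2.2.2.1 (g1 ω hB)]
      exact sub_self _
  · apply gen
    · intro ω
      have h1 := b3 ω
      have h2 := b4 ω
      have h1' : ((LL (etat t (C ω) (fun i => Z i ω)) : ℕ) : ℝ) ≤ ((C ω).1 : ℝ) + (C ω).2 := by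
        exact_mod_cast h1
      have h2' : ((Lc (kapt t n M K (C ω) (fun i => Z i ω)) : ℕ) : ℝ) ≤
          ((C ω).1 : ℝ) + (C ω).2 := by
        exact_mod_cast h2
      have h3 : (0 : ℝ) ≤ ((LL (etat t (C ω) (fun i => Z i ω)) : ℕ) : ℝ) := Nat.cast_nonneg _
      have h4 : (0 : ℝ) ≤ ((Lc (kapt t n M K (C ω) (fun i => Z i ω)) : ℕ) : ℝ) :=
        Nat.cast_nonneg _
      rw [Nat.cast_add, abs_le]
      constructor <;> linarith
    · intro ω hB
      rw [(hD5b t n M K (C ω) (Z' ω)).2.2.2.2.2 (g1 ω hB) (g2 ω hB) (g3 ω hB)]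
      exact sub_self _

end Pool.Agent.Q234.PN.D5
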